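import Pool.Agent.Lib.MP_727085_co.Had

set_option autoImplicit false

/-!
# Asymptotic lower bound: the weighted Hadamard inequality

`v 0, ..., v n` are points of the cube, `t` weights, `pt v t` the point with these barycentric
coordinates.
-/

namespace Pool.Agent.Lib.MP_727085_co.As

open Finset Matrix

variable {n : ℕ}

/-- the columns `(1, v j)` -/
def extM (v : Fin (n + 1) → Fin n → ℝ) : Matrix (Fin (n + 1)) (Fin (n + 1)) ℝ :=
  Matrix.of fun a j => (Fin.cons 1 (v j) : Fin (n + 1) → ℝ) a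

/-- the point with barycentric coordinates `t` -/
def pt (v : Fin (n + 1) → Fin n → ℝ) (t : Fin (n + 1) → ℝ) : Fin n → ℝ :=
  fun i => ∑ j, t j * v j i

/-- weights -/
def Wt (n : ℕ) : Set (Fin (n + 1) → ℝ) := {t | (∀ j, 0 ≤ t j) ∧ ∑ j, t j = 1}

theorem pt_mem {v : Fin (n + 1) → Fin n → ℝ} (hv : ∀ j i, 0 ≤ v j i ∧ v j i ≤ 1)
    {t : Fin (n + 1) → ℝ} (ht : t ∈ Wt n) (i : Fin n) : 0 ≤ pt v t i ∧ pt v t i ≤ 1 := by
  constructor
  · exact Finset.sum_nonneg fun j _ => mul_nonneg (ht.1 j) (hv j i).1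
  · calc ∑ j, t j * v j i ≤ ∑ j, t j * 1 :=
          Finset.sum_le_sum fun j _ => mul_le_mul_of_nonneg_left (hv j i).2 (ht.1 j)
      _ = 1 := by rw [← Finset.sum_mul, ht.2, one_mul]

/-- the variance of a coordinate -/
theorem var_le {v : Fin (n + 1) → Fin n → ℝ} (hv : ∀ j i, 0 ≤ v j i ∧ v j i ≤ 1)
    {t : Fin (n + 1) → ℝ} (ht : t ∈ Wt n) (i : Fin n) :
    ∑ j, (Real.sqrt (t j) * (v j i - pt v t i)) ^ 2 ≤ pt v t i * (1 - pt v t i) := by
  have h1 : ∀ j, (Real.sqrt (t j) * (v j i - pt v t i)) ^ 2 =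
      t j * (v j i) ^ 2 - 2 * pt v t i * (t j * v j i) + t j * (pt v t i) ^ 2 := by
    intro j
    rw [mul_pow, Real.sq_sqrt (ht.1 j)]
    ring
  have h2 : ∑ j, t j * (v j i) ^ 2 ≤ pt v t i := by
    unfold pt
    refine Finset.sum_le_sum fun j _ => mul_le_mul_of_nonneg_left ?_ (ht.1 j)
    nlinarith [(hv j i).1, (hv j i).2]
  have h3 : ∑ j, t j * v j i = pt v t i := rfl
  rw [Finset.sum_congr rfl fun j _ => h1 j, Finset.sum_add_distrib, Finset.sum_sub_distrib,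
    ← Finset.mul_sum, ← Finset.sum_mul, h3, ht.2]
  nlinarith

/-- Hadamard inequality with weights. -/
theorem had_weight {v : Fin (n + 1) → Fin n → ℝ} (hv : ∀ j i, 0 ≤ v j i ∧ v j i ≤ 1)
    {t : Fin (n + 1) → ℝ} (ht : t ∈ Wt n) :
    (∏ j, t j) * (extM v).det ^ 2 ≤ ∏ i, (pt v t i * (1 - pt v t i)) := by
  let x := pt v t
  let S : Matrix (Fin (n + 1)) (Fin (n + 1)) ℝ :=
    Matrix.of fun a j => (Fin.cons 1 (fun i => v j i - x i) : Fin (n + 1) → ℝ) a
  have hS : S.det = (extM v).det := by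
    refine Matrix.det_eq_of_forall_row_eq_smul_add_const
      (Fin.cons 0 (fun i => - x i) : Fin (n + 1) → ℝ) 0 rfl ?_
    intro a j
    refine Fin.cases ?_ (fun i => ?_) a
    · simp [S, extM]
    · simp [S, extM]
      ring
  have hW : (Matrix.of fun a j => Real.sqrt (t j) * S a j).det =
      (∏ j, Real.sqrt (t j)) * (extM v).det := by
    rw [Matrix.det_mul_row, hS]
  have h1 := had (Matrix.of fun a j => Real.sqrt (t j) * S a j)
  rw [hW, mul_pow, ← Finset.prod_pow, Finset.prod_congr rfl fun j _ => Real.sq_sqrt (ht.1 j)] at h1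
  refine h1.trans ?_
  rw [Fin.prod_univ_succ]
  have h0 : ∑ j, (Matrix.of fun a j => Real.sqrt (t j) * S a j) 0 j ^ 2 = 1 := by
    rw [← ht.2]
    refine Finset.sum_congr rfl fun j _ => ?_
    simp only [S, Matrix.of_apply, Fin.cons_zero, mul_one]
    exact Real.sq_sqrt (ht.1 j)
  rw [h0, one_mul]
  refine Finset.prod_le_prod (fun i _ => Finset.sum_nonneg fun j _ => sq_nonneg _) fun i _ => ?_
  exact var_le hv ht i

/-- AM-GM. -/
theorem prod_wt_le {t : Fin (n + 1) → ℝ} (ht : t ∈ Wt n) :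
    ∏ j, t j ≤ (1 / ((n : ℝ) + 1)) ^ (n + 1) := by
  have hn : (0 : ℝ) < (n : ℝ) + 1 := by positivity
  have h1 := Real.geom_mean_le_arith_mean_weighted (Finset.univ : Finset (Fin (n + 1)))
    (fun _ => 1 / ((n : ℝ) + 1)) t (fun _ _ => by positivity)
    (by
      rw [Finset.sum_const, Finset.card_univ, Fintype.card_fin, nsmul_eq_mul]
      push_cast
      field_simp) (fun j _ => ht.1 j)
  rw [← Finset.mul_sum, ht.2, mul_one] at h1
  have h2 : ∏ j, t j = (∏ j, t j ^ (1 / ((n : ℝ) + 1))) ^ (n + 1) := by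
    rw [← Finset.prod_pow]
    refine Finset.prod_congr rfl fun j _ => ?_
    rw [← Real.rpow_natCast, ← Real.rpow_mul (ht.1 j)]
    push_cast
    rw [one_div_mul_cancel hn.ne', Real.rpow_one]
  rw [h2]
  exact pow_le_pow_left₀ (Finset.prod_nonneg fun j _ => Real.rpow_nonneg (ht.1 j) _) h1 _

/-- The combination of both. -/
theorem det_prod_le {v : Fin (n + 1) → Fin n → ℝ} (hv : ∀ j i, 0 ≤ v j i ∧ v j i ≤ 1)
    {t : Fin (n + 1) → ℝ} (ht : t ∈ Wt n) :
    ((n : ℝ) + 1) ^ (n + 1) * (|(extM v).det| * ∏ j, t j) ≤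
      Real.sqrt ((n : ℝ) + 1) ^ (n + 1) * ∏ i, Real.sqrt (pt v t i * (1 - pt v t i)) := by
  have hn : (0 : ℝ) < (n : ℝ) + 1 := by positivity
  have hP : 0 ≤ ∏ j, t j := Finset.prod_nonneg fun j _ => ht.1 j
  have hx : ∀ i, 0 ≤ pt v t i * (1 - pt v t i) := fun i =>
    mul_nonneg (pt_mem hv ht i).1 (sub_nonneg.mpr (pt_mem hv ht i).2)
  have h1 := had_weight hv ht
  have h2 := prod_wt_le ht
  have h3 : |(extM v).det| * Real.sqrt (∏ j, t j) ≤ ∏ i, Real.sqrt (pt v t i * (1 - pt v t i)) := by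
    have h4 : |(extM v).det| * Real.sqrt (∏ j, t j) =
        Real.sqrt ((∏ j, t j) * (extM v).det ^ 2) := by
      rw [Real.sqrt_mul hP, Real.sqrt_sq_eq_abs, mul_comm]
    rw [h4, Real.sqrt_le_left (Finset.prod_nonneg fun i _ => Real.sqrt_nonneg _),
      ← Finset.prod_pow, Finset.prod_congr rfl fun i _ => Real.sq_sqrt (hx i)]
    exact h1
  have h5 : ((n : ℝ) + 1) ^ (n + 1) * Real.sqrt (∏ j, t j) ≤ Real.sqrt ((n : ℝ) + 1) ^ (n + 1) := by
    have h6 : Real.sqrt (∏ j, t j) ≤ Real.sqrt ((1 / ((n : ℝ) + 1)) ^ (n + 1)) :=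
      Real.sqrt_le_sqrt h2
    have h7 : Real.sqrt ((1 / ((n : ℝ) + 1)) ^ (n + 1)) = (1 / Real.sqrt ((n : ℝ) + 1)) ^ (n + 1) := by
      rw [Real.sqrt_eq_iff_mul_self_eq (by positivity) (by positivity), ← mul_pow, div_mul_div_comm,
        one_mul, Real.mul_self_sqrt hn.le]
    rw [h7] at h6
    have h8 : ((n : ℝ) + 1) ^ (n + 1) * (1 / Real.sqrt ((n : ℝ) + 1)) ^ (n + 1) =
        Real.sqrt ((n : ℝ) + 1) ^ (n + 1) := by
      rw [← mul_pow, mul_one_div, Real.div_sqrt]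
    rw [← h8]
    exact mul_le_mul_of_nonneg_left h6 (by positivity)
  calc ((n : ℝ) + 1) ^ (n + 1) * (|(extM v).det| * ∏ j, t j)
      = (((n : ℝ) + 1) ^ (n + 1) * Real.sqrt (∏ j, t j)) *
        (|(extM v).det| * Real.sqrt (∏ j, t j)) := by
        nth_rewrite 1 [← Real.mul_self_sqrt hP]
        ring
    _ ≤ Real.sqrt ((n : ℝ) + 1) ^ (n + 1) * ∏ i, Real.sqrt (pt v t i * (1 - pt v t i)) :=
        mul_le_mul h5 h3 (by positivity) (by positivity)

end Pool.Agent.Lib.MP_727085_co.As
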