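import Pool.Agent.Lib.MP_727085_co.As.A
import Pool.Agent.Lib.MP_727085_co.Vol

set_option autoImplicit false

/-!
# Asymptotic lower bound: volumes of cones
-/

namespace Pool.Agent.Lib.MP_727085_co.As

open Finset Matrix MeasureTheory Set
open scoped ENNReal Pointwise

variable {n : ℕ}

theorem lint_pow (n : ℕ) : ∫⁻ r in Set.Ioc (0 : ℝ) 1, ENNReal.ofReal |r ^ n| =
    ENNReal.ofReal (1 / ((n : ℝ) + 1)) := by
  have h1 : ∀ r ∈ Set.Ioc (0 : ℝ) 1, ENNReal.ofReal |r ^ n| = ENNReal.ofReal (r ^ n) := by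
    intro r hr
    rw [abs_of_nonneg (pow_nonneg hr.1.le n)]
  rw [setLIntegral_congr_fun measurableSet_Ioc h1, ← ofReal_integral_eq_lintegral_ofReal]
  · rw [← intervalIntegral.integral_of_le zero_le_one, integral_pow]
    simp
  · exact (continuous_pow n).integrableOn_Icc.mono_set Set.Ioc_subset_Icc_self
  · filter_upwards [self_mem_ae_restrict measurableSet_Ioc] with r hr
    exact pow_nonneg hr.1.le n

/-- The volume of a set in terms of a set which contains the cone over it. -/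
theorem cone_vol (C : Set (Fin n → ℝ)) (S : Set (Fin (n + 1) → ℝ)) (hS : MeasurableSet S)
    (h : ∀ r : ℝ, 0 < r → r ≤ 1 → ∀ x ∈ C, (Fin.cons r (r • x) : Fin (n + 1) → ℝ) ∈ S) :
    volume C ≤ ((n : ℝ≥0∞) + 1) * volume S := by
  let e := MeasurableEquiv.piFinSuccAbove (fun _ : Fin (n + 1) => ℝ) 0
  have he := volume_preserving_piFinSuccAbove (fun _ : Fin (n + 1) => ℝ) 0
  have h1 : volume S = (volume : Measure (ℝ × (Fin n → ℝ))) (e.symm ⁻¹' S) :=
    (he.symm.measure_preimage hS.nullMeasurableSet).symm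
  have h2 : (volume : Measure (ℝ × (Fin n → ℝ))) (e.symm ⁻¹' S) =
      ∫⁻ r : ℝ, volume (Prod.mk r ⁻¹' (e.symm ⁻¹' S)) := by
    rw [Measure.volume_eq_prod, Measure.prod_apply (e.symm.measurable hS)]
  have h3 : ∫⁻ r in Set.Ioc (0 : ℝ) 1, volume (r • C) ≤
      ∫⁻ r : ℝ, volume (Prod.mk r ⁻¹' (e.symm ⁻¹' S)) := by
    refine le_trans ?_ (setLIntegral_le_lintegral (Set.Ioc (0 : ℝ) 1) _)
    refine setLIntegral_mono' measurableSet_Ioc fun r hr => measure_mono ?_
    rintro _ ⟨x, hx, rfl⟩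
    have h8 : e.symm (r, r • x) = (Fin.cons r (r • x) : Fin (n + 1) → ℝ) := by
      funext a
      refine Fin.cases ?_ (fun i => ?_) a
      · simp [e, MeasurableEquiv.piFinSuccAbove]
      · simp [e, MeasurableEquiv.piFinSuccAbove]
    change e.symm (r, r • x) ∈ S
    rw [h8]
    exact h r hr.1 hr.2 x hx
  have h4 : ∫⁻ r in Set.Ioc (0 : ℝ) 1, volume (r • C) =
      ENNReal.ofReal (1 / ((n : ℝ) + 1)) * volume C := by
    have h5 : ∀ r : ℝ, volume (r • C) = ENNReal.ofReal |r ^ n| * volume C := by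
      intro r
      rw [Measure.addHaar_smul]
      simp
    simp_rw [h5]
    rw [lintegral_mul_const _ (by fun_prop), lint_pow]
  rw [h4, ← h2, ← h1] at h3
  have h6 : ((n : ℝ≥0∞) + 1) * ENNReal.ofReal (1 / ((n : ℝ) + 1)) = 1 := by
    have h7 : ((n : ℝ≥0∞) + 1) = ENNReal.ofReal ((n : ℝ) + 1) := by
      rw [ENNReal.ofReal_add (Nat.cast_nonneg n) zero_le_one, ENNReal.ofReal_natCast,
        ENNReal.ofReal_one]
    rw [h7, ← ENNReal.ofReal_mul (by positivity), mul_one_div_cancel (by positivity),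
      ENNReal.ofReal_one]
  calc volume C = ((n : ℝ≥0∞) + 1) * ENNReal.ofReal (1 / ((n : ℝ) + 1)) * volume C := by
        rw [h6, one_mul]
    _ = ((n : ℝ≥0∞) + 1) * (ENNReal.ofReal (1 / ((n : ℝ) + 1)) * volume C) := by rw [mul_assoc]
    _ ≤ ((n : ℝ≥0∞) + 1) * volume S := by gcongr

/-- the simplex `y ≥ 0`, `∑ y j / t j ≤ n + 1` as a linear image of the standard simplex -/
noncomputable def dg (t : Fin (n + 1) → ℝ) : (Fin (n + 1) → ℝ) →ₗ[ℝ] (Fin (n + 1) → ℝ) :=
  Matrix.toLin' (Matrix.diagonal fun j => ((n : ℝ) + 1) * t j)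

theorem dg_apply (t y : Fin (n + 1) → ℝ) (j : Fin (n + 1)) :
    dg t y j = ((n : ℝ) + 1) * t j * y j := by
  simp [dg, Matrix.toLin'_apply, Matrix.mulVec_diagonal]

theorem extM_apply (v : Fin (n + 1) → Fin n → ℝ) (y : Fin (n + 1) → ℝ) :
    Matrix.toLin' (extM v) y = (Fin.cons (∑ j, y j) (pt v y) : Fin (n + 1) → ℝ) := by
  funext a
  rw [Matrix.toLin'_apply, Matrix.mulVec, dotProduct]
  refine Fin.cases ?_ (fun i => ?_) a
  · simp [extM]
  · simp only [extM, Matrix.of_apply, Fin.cons_succ, pt]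
    exact Finset.sum_congr rfl fun j _ => mul_comm _ _

/-- The volume of the set of points whose barycentric coordinates satisfy `∑ s j / t j ≤ n + 1`. -/
theorem vol_le {v : Fin (n + 1) → Fin n → ℝ} {t : Fin (n + 1) → ℝ} (ht : ∀ j, 0 < t j)
    {K : Set (Fin (n + 1) → ℝ)} (hK : ∀ s ∈ K, s ∈ Wt n ∧ ∑ j, s j / t j ≤ (n : ℝ) + 1) :
    volume (pt v '' K) ≤
      ENNReal.ofReal (((n : ℝ) + 1) ^ (n + 1) * (|(extM v).det| * ∏ j, t j) / n.factorial) := by
  have hn : (0 : ℝ) < (n : ℝ) + 1 := by positivity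
  let L := (Matrix.toLin' (extM v)) ∘ₗ (dg t)
  have hvolS : volume (L '' stdD (n + 1)) = ENNReal.ofReal
      (|(extM v).det| * (((n : ℝ) + 1) ^ (n + 1) * ∏ j, t j) * (1 / ((n + 1).factorial : ℝ))) := by
    rw [Measure.addHaar_image_linearMap, vol_std (Nat.succ_pos n), ← ENNReal.ofReal_mul (abs_nonneg _)]
    congr 2
    rw [LinearMap.det_comp, LinearMap.det_toLin', dg, LinearMap.det_toLin', Matrix.det_diagonal,
      Finset.prod_mul_distrib, Finset.prod_const, Finset.card_univ, Fintype.card_fin, abs_mul]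
    congr 1
    exact abs_of_nonneg (mul_nonneg (by positivity) (Finset.prod_nonneg fun j _ => (ht j).le))
  have hcl : IsCompact (L '' stdD (n + 1)) := by
    refine IsCompact.image ?_ (LinearMap.continuous_of_finiteDimensional L)
    refine Metric.isCompact_of_isClosed_isBounded (isClosed_stdD _) ?_
    refine (Metric.isBounded_Icc (0 : Fin (n + 1) → ℝ) 1).subset fun y hy => ?_
    refine ⟨fun j => hy.1 j, fun j => ?_⟩
    exact (Finset.single_le_sum (fun i _ => hy.1 i) (Finset.mem_univ j)).trans hy.2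
  have h1 := cone_vol (pt v '' K) (L '' stdD (n + 1)) hcl.isClosed.measurableSet (by
    rintro r hr hr1 _ ⟨s, hs, rfl⟩
    obtain ⟨⟨hs0, hs1⟩, hs2⟩ := hK s hs
    refine ⟨fun j => r * s j / (((n : ℝ) + 1) * t j), ⟨fun j => ?_, ?_⟩, ?_⟩
    · have := hs0 j
      have := ht j
      positivity
    · have h2 : ∀ j, r * s j / (((n : ℝ) + 1) * t j) = r / ((n : ℝ) + 1) * (s j / t j) := by
        intro j
        rw [div_mul_div_comm]
      rw [Finset.sum_congr rfl fun j _ => h2 j, ← Finset.mul_sum]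
      calc r / ((n : ℝ) + 1) * ∑ j, s j / t j ≤ r / ((n : ℝ) + 1) * ((n : ℝ) + 1) :=
            mul_le_mul_of_nonneg_left hs2 (by positivity)
        _ = r := by field_simp
        _ ≤ 1 := hr1
    · have h2 : dg t (fun j => r * s j / (((n : ℝ) + 1) * t j)) = r • s := by
        funext j
        rw [dg_apply, Pi.smul_apply, smul_eq_mul]
        have := (ht j).ne'
        field_simp
      change Matrix.toLin' (extM v) (dg t (fun j => r * s j / (((n : ℝ) + 1) * t j))) = _
      rw [h2, map_smul, extM_apply]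
      funext a
      refine Fin.cases ?_ (fun i => ?_) a
      · simp [hs1]
      · simp)
  refine h1.trans (le_of_eq ?_)
  rw [hvolS]
  have h7 : ((n : ℝ≥0∞) + 1) = ENNReal.ofReal ((n : ℝ) + 1) := by
    rw [ENNReal.ofReal_add (Nat.cast_nonneg n) zero_le_one, ENNReal.ofReal_natCast,
      ENNReal.ofReal_one]
  rw [h7, ← ENNReal.ofReal_mul hn.le]
  congr 1
  rw [Nat.factorial_succ]
  push_cast
  have hf : (0 : ℝ) < n.factorial := by exact_mod_cast Nat.factorial_pos n
  field_simp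

end Pool.Agent.Lib.MP_727085_co.As
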