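import Mathlib

set_option autoImplicit false

/-!
# Asymptotic lower bound: the analytic centre of a compact convex set
-/

namespace Pool.Agent.Lib.MP_727085_co.As

open Finset

/-- first order condition -/
theorem sum_nonpos_of_prod_le {ι : Type*} [Fintype ι] {a : ι → ℝ} (ha : ∀ j, -1 ≤ a j)
    (h : ∀ ε : ℝ, 0 < ε → ε ≤ 1 / 2 → ∏ j, (1 + ε * a j) ≤ 1) : ∑ j, a j ≤ 0 := by
  by_contra hc
  push Not at hc
  set c := ∑ j, a j with hcdef
  set B := ∑ j, (a j) ^ 2 with hB
  have hB0 : 0 ≤ B := Finset.sum_nonneg fun j _ => sq_nonneg _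
  have key : ∀ ε : ℝ, 0 < ε → ε ≤ 1 / 2 → c ≤ 2 * ε * B := by
    intro ε h0 h1
    have hp : ∀ j, 1 / 2 ≤ 1 + ε * a j := by
      intro j
      have := ha j
      nlinarith
    have h2 : ∀ j, ε * a j - 2 * ε ^ 2 * (a j) ^ 2 ≤ Real.log (1 + ε * a j) := by
      intro j
      have hpj := hp j
      have hpos : 0 < 1 + ε * a j := by linarith
      have h3 := Real.one_sub_inv_le_log_of_pos hpos
      refine le_trans ?_ h3
      rw [le_sub_iff_add_le, ← le_sub_iff_add_le', inv_le_iff_one_le_mul₀ hpos]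
      have h4 : 0 ≤ ε ^ 2 * (a j) ^ 2 := by positivity
      nlinarith [mul_nonneg h4 (by linarith : 0 ≤ (1 + ε * a j) - 1 / 2)]
    have h5 : ∑ j, Real.log (1 + ε * a j) ≤ 0 := by
      rw [← Real.log_prod (fun j _ => by
        have := hp j
        linarith)]
      exact Real.log_nonpos (Finset.prod_nonneg fun j _ => by
        have := hp j
        linarith) (h ε h0 h1)
    have h6 : ∑ j, (ε * a j - 2 * ε ^ 2 * (a j) ^ 2) ≤ 0 :=
      (Finset.sum_le_sum fun j _ => h2 j).trans h5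
    rw [Finset.sum_sub_distrib, ← Finset.mul_sum, ← Finset.mul_sum, ← hcdef, ← hB] at h6
    have h7 : ε * c ≤ ε * (2 * ε * B) := by nlinarith
    exact le_of_mul_le_mul_left h7 h0
  have h8 := key (min (1 / 2) (c / (4 * B + 1))) (by positivity) (min_le_left _ _)
  have h9 : min (1 / 2) (c / (4 * B + 1)) ≤ c / (4 * B + 1) := min_le_right _ _
  have h10 : c ≤ 2 * (c / (4 * B + 1)) * B := by
    refine h8.trans ?_
    exact mul_le_mul_of_nonneg_right (mul_le_mul_of_nonneg_left h9 (by norm_num)) hB0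
  have h11 : 2 * (c / (4 * B + 1)) * B = c * (2 * B / (4 * B + 1)) := by
    field_simp
  rw [h11] at h10
  have h12 : 2 * B / (4 * B + 1) < 1 := by
    rw [div_lt_one (by positivity)]
    linarith
  nlinarith

theorem centre {ι : Type*} [Fintype ι] {K : Set (ι → ℝ)} (hK : IsCompact K) (hc : Convex ℝ K)
    (hpos : ∀ s ∈ K, ∀ j, 0 ≤ s j) (hne : ∃ s ∈ K, ∀ j, 0 < s j) :
    ∃ t ∈ K, (∀ j, 0 < t j) ∧ ∀ s ∈ K, ∑ j, s j / t j ≤ (Fintype.card ι : ℝ) := by
  obtain ⟨s0, hs0, hs0pos⟩ := hne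
  obtain ⟨t, ht, hmax⟩ := hK.exists_isMaxOn ⟨s0, hs0⟩
    (f := fun s : ι → ℝ => ∏ j, s j)
    (continuous_finsetProd _ fun j _ => continuous_apply j).continuousOn
  have hft : 0 < ∏ j, t j :=
    lt_of_lt_of_le (Finset.prod_pos fun j _ => hs0pos j) (hmax hs0)
  have htpos : ∀ j, 0 < t j := by
    intro j
    refine lt_of_le_of_ne (hpos t ht j) fun h0 => ?_
    rw [Finset.prod_eq_zero (Finset.mem_univ j) h0.symm] at hft
    exact lt_irrefl _ hft
  refine ⟨t, ht, htpos, fun s hs => ?_⟩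
  have h1 : ∑ j, (s j / t j - 1) ≤ 0 := by
    refine sum_nonpos_of_prod_le (fun j => ?_) fun ε h0 hε => ?_
    · have : 0 ≤ s j / t j := div_nonneg (hpos s hs j) (htpos j).le
      linarith
    · have h2 : (1 - ε) • t + ε • s ∈ K := hc ht hs (by linarith) h0.le (by ring)
      have h3 : ∏ j, ((1 - ε) • t + ε • s) j ≤ ∏ j, t j := hmax h2
      have h4 : ∏ j, ((1 - ε) • t + ε • s) j = (∏ j, t j) * ∏ j, (1 + ε * (s j / t j - 1)) := by
        rw [← Finset.prod_mul_distrib]
        refine Finset.prod_congr rfl fun j _ => ?_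
        have := (htpos j).ne'
        simp only [Pi.add_apply, Pi.smul_apply, smul_eq_mul]
        field_simp
        ring
      rw [h4] at h3
      by_contra h5
      push Not at h5
      have h6 := mul_lt_mul_of_pos_left h5 hft
      linarith
  rw [Finset.sum_sub_distrib, Finset.sum_const, Finset.card_univ, nsmul_eq_mul, mul_one] at h1
  linarith

end Pool.Agent.Lib.MP_727085_co.As
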