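import Pool.Agent.Lib.MP_727085_co.As.A

set_option autoImplicit false

/-!
# Asymptotic lower bound: covering a simplex by balls around means of `k` vertices
-/

namespace Pool.Agent.Lib.MP_727085_co.As

open Finset

variable {n : ℕ}

theorem maurey {v : Fin (n + 1) → Fin n → ℝ} (hv : ∀ j i, 0 ≤ v j i ∧ v j i ≤ 1)
    {t : Fin (n + 1) → ℝ} (ht : t ∈ Wt n) (k : ℕ) :
    ∃ J : Fin k → Fin (n + 1),
      ∑ i, ((k : ℝ) * pt v t i - ∑ l, v (J l) i) ^ 2 ≤ (k : ℝ) * n := by
  induction k with
  | zero => exact ⟨Fin.elim0, by simp⟩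
  | succ k ih =>
    obtain ⟨J, hJ⟩ := ih
    set x := pt v t with hx
    obtain ⟨j, hj⟩ : ∃ j, ∑ i, ((k : ℝ) * x i - ∑ l, v (J l) i) * (x i - v j i) ≤ 0 := by
      by_contra hne
      push Not at hne
      have h1 : ∑ j, t j * ∑ i, ((k : ℝ) * x i - ∑ l, v (J l) i) * (x i - v j i) = 0 := by
        simp_rw [Finset.mul_sum]
        rw [Finset.sum_comm]
        refine Finset.sum_eq_zero fun i _ => ?_
        have h2 : ∀ j, t j * (((k : ℝ) * x i - ∑ l, v (J l) i) * (x i - v j i)) =
            ((k : ℝ) * x i - ∑ l, v (J l) i) * (t j * x i - t j * v j i) := by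
          intro j
          ring
        rw [Finset.sum_congr rfl fun j _ => h2 j, ← Finset.mul_sum, Finset.sum_sub_distrib,
          ← Finset.sum_mul, ht.2, one_mul]
        have h3 : ∑ j, t j * v j i = x i := rfl
        rw [h3, sub_self, mul_zero]
      have h4 : ∃ j, 0 < t j := by
        by_contra h5
        push Not at h5
        have h6 : ∑ j, t j ≤ 0 := Finset.sum_nonpos fun j _ => h5 j
        rw [ht.2] at h6
        linarith
      obtain ⟨j, hj⟩ := h4
      have h7 : 0 < ∑ j, t j * ∑ i, ((k : ℝ) * x i - ∑ l, v (J l) i) * (x i - v j i) :=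
        Finset.sum_pos' (fun j _ => mul_nonneg (ht.1 j) (hne j).le)
          ⟨j, Finset.mem_univ j, mul_pos hj (hne j)⟩
      rw [h1] at h7
      exact lt_irrefl _ h7
    refine ⟨Fin.cons j J, ?_⟩
    have h1 : ∀ i, (((k + 1 : ℕ) : ℝ) * x i - ∑ l : Fin (k + 1), v ((Fin.cons j J : Fin (k + 1) → Fin (n + 1)) l) i) ^ 2 =
        ((k : ℝ) * x i - ∑ l, v (J l) i) ^ 2 +
          2 * (((k : ℝ) * x i - ∑ l, v (J l) i) * (x i - v j i)) + (x i - v j i) ^ 2 := by
      intro i
      rw [Fin.sum_univ_succ]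
      simp only [Fin.cons_zero, Fin.cons_succ]
      push_cast
      ring
    rw [Finset.sum_congr rfl fun i _ => h1 i, Finset.sum_add_distrib, Finset.sum_add_distrib,
      ← Finset.mul_sum]
    have h2 : ∑ i, (x i - v j i) ^ 2 ≤ (n : ℝ) := by
      calc ∑ i, (x i - v j i) ^ 2 ≤ ∑ _i : Fin n, (1 : ℝ) := by
            refine Finset.sum_le_sum fun i _ => ?_
            have h3 := pt_mem hv ht i
            have h4 := hv j i
            rw [← hx] at h3
            nlinarith
        _ = n := by simp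
    push_cast
    linarith

end Pool.Agent.Lib.MP_727085_co.As
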