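import Pool.Agent.Lib.MP_727085_co.As.B
import Pool.Agent.Lib.MP_727085_co.As.C

set_option autoImplicit false

/-!
# Asymptotic lower bound: the weight and its integral over a small piece of a simplex
-/

namespace Pool.Agent.Lib.MP_727085_co.As

open Finset Matrix MeasureTheory Set
open scoped ENNReal

variable {n : ℕ}

/-- The weight `1 / √(max (x (1 - x)) δ)`. -/
noncomputable def rho (δ x : ℝ) : ℝ := 1 / Real.sqrt (max (x * (1 - x)) δ)

theorem rho_pos {δ : ℝ} (hδ : 0 < δ) (x : ℝ) : 0 < rho δ x := by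
  unfold rho
  have : 0 < max (x * (1 - x)) δ := lt_of_lt_of_le hδ (le_max_right _ _)
  positivity

theorem continuous_rho {δ : ℝ} (hδ : 0 < δ) : Continuous (rho δ) := by
  unfold rho
  refine continuous_const.div (Real.continuous_sqrt.comp
    ((continuous_id.mul (continuous_const.sub continuous_id)).max continuous_const)) fun x => ?_
  have : 0 < max (x * (1 - x)) δ := lt_of_lt_of_le hδ (le_max_right _ _)
  positivity

theorem sqrt_mul_rho {δ : ℝ} (hδ : 0 < δ) (x : ℝ) :
    Real.sqrt (x * (1 - x)) * rho δ x ≤ 1 := by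
  unfold rho
  have h1 : 0 < max (x * (1 - x)) δ := lt_of_lt_of_le hδ (le_max_right _ _)
  rw [mul_one_div, div_le_one (Real.sqrt_pos.mpr h1)]
  exact Real.sqrt_le_sqrt (le_max_left _ _)

theorem rho_le {δ : ℝ} (hδ : 0 < δ) {x y : ℝ} (hx : 0 ≤ x ∧ x ≤ 1) (hy : 0 ≤ y ∧ y ≤ 1) :
    rho δ x ≤ rho δ y * Real.exp (|x - y| / (2 * δ)) := by
  have hx1 : 0 < max (x * (1 - x)) δ := lt_of_lt_of_le hδ (le_max_right _ _)
  have hy1 : 0 < max (y * (1 - y)) δ := lt_of_lt_of_le hδ (le_max_right _ _)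
  have h1 : y * (1 - y) ≤ x * (1 - x) + |x - y| := by
    have h2 : y * (1 - y) - x * (1 - x) = (x - y) * (x + y - 1) := by ring
    have h3 : (x - y) * (x + y - 1) ≤ |x - y| := by
      calc (x - y) * (x + y - 1) ≤ |(x - y) * (x + y - 1)| := le_abs_self _
        _ = |x - y| * |x + y - 1| := abs_mul _ _
        _ ≤ |x - y| * 1 := by
            refine mul_le_mul_of_nonneg_left ?_ (abs_nonneg _)
            rw [abs_le]
            constructor <;> linarith
        _ = |x - y| := mul_one _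
    linarith
  have h2 : max (y * (1 - y)) δ ≤ max (x * (1 - x)) δ + |x - y| := by
    refine max_le ?_ ?_
    · exact h1.trans (by linarith [le_max_left (x * (1 - x)) δ])
    · have := le_max_right (x * (1 - x)) δ
      have := abs_nonneg (x - y)
      linarith
  have h3 : max (x * (1 - x)) δ + |x - y| ≤ max (x * (1 - x)) δ * Real.exp (|x - y| / δ) := by
    have h4 := Real.add_one_le_exp (|x - y| / δ)
    have h5 : |x - y| ≤ max (x * (1 - x)) δ * (|x - y| / δ) := by
      rw [mul_div_assoc', le_div_iff₀ hδ, mul_comm]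
      exact mul_le_mul_of_nonneg_right (le_max_right _ _) (abs_nonneg _)
    nlinarith
  have h4 : Real.sqrt (max (y * (1 - y)) δ) ≤
      Real.sqrt (max (x * (1 - x)) δ) * Real.exp (|x - y| / (2 * δ)) := by
    have h5 : Real.sqrt (max (x * (1 - x)) δ * Real.exp (|x - y| / δ)) =
        Real.sqrt (max (x * (1 - x)) δ) * Real.exp (|x - y| / (2 * δ)) := by
      rw [Real.sqrt_mul hx1.le, Real.sqrt_eq_iff_mul_self_eq (Real.exp_pos _).le
        (Real.exp_pos _).le |>.mpr]
      rw [← Real.exp_add]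
      congr 1
      field_simp
      ring
    rw [← h5]
    exact Real.sqrt_le_sqrt (h2.trans h3)
  unfold rho
  rw [div_mul_eq_mul_div, one_mul, div_le_div_iff₀ (Real.sqrt_pos.mpr hx1) (Real.sqrt_pos.mpr hy1),
    one_mul]
  linarith

/-- A facet has volume zero. -/
theorem face_null {v : Fin (n + 1) → Fin n → ℝ} (j : Fin (n + 1)) :
    volume (pt v '' {s | s ∈ Wt n ∧ s j = 0}) = 0 := by
  have h1 : ∀ ε : ℝ, 0 < ε → volume (pt v '' {s | s ∈ Wt n ∧ s j = 0}) ≤
      ENNReal.ofReal (((n : ℝ) + 1) ^ (n + 1) * (|(extM v).det| *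
        (1 / ((n : ℝ) + 1)) ^ n) / n.factorial * ε) := by
    intro ε hε
    have h2 := vol_le (v := v) (t := fun l => if l = j then ε else 1 / ((n : ℝ) + 1))
      (K := {s | s ∈ Wt n ∧ s j = 0}) (fun l => by
        split_ifs
        · exact hε
        · positivity) (by
        rintro s ⟨hs, hsj⟩
        refine ⟨hs, ?_⟩
        have h3 : ∀ l, s l / (if l = j then ε else 1 / ((n : ℝ) + 1)) = s l * ((n : ℝ) + 1) := by
          intro l
          by_cases hl : l = j
          · subst hl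
            rw [hsj, zero_div, zero_mul]
          · rw [if_neg hl, div_div_eq_mul_div, div_one]
        rw [Finset.sum_congr rfl fun l _ => h3 l, ← Finset.sum_mul, hs.2, one_mul])
    refine h2.trans (le_of_eq ?_)
    congr 1
    have h4 : ∏ l, (if l = j then ε else 1 / ((n : ℝ) + 1)) = (1 / ((n : ℝ) + 1)) ^ n * ε := by
      rw [← Finset.mul_prod_erase Finset.univ _ (Finset.mem_univ j), if_pos rfl, mul_comm]
      congr 1
      rw [Finset.prod_congr rfl fun l hl => if_neg (Finset.ne_of_mem_erase hl), Finset.prod_const,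
        Finset.card_erase_of_mem (Finset.mem_univ j), Finset.card_univ, Fintype.card_fin,
        Nat.add_sub_cancel]
    rw [h4]
    ring
  set c := ((n : ℝ) + 1) ^ (n + 1) * (|(extM v).det| * (1 / ((n : ℝ) + 1)) ^ n) / n.factorial
    with hc
  have hc0 : 0 ≤ c := by positivity
  by_contra hne
  have h5 : volume (pt v '' {s | s ∈ Wt n ∧ s j = 0}) ≠ ⊤ :=
    ne_top_of_le_ne_top ENNReal.ofReal_ne_top (h1 1 one_pos)
  have h6 : 0 < (volume (pt v '' {s | s ∈ Wt n ∧ s j = 0})).toReal := ENNReal.toReal_pos hne h5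
  set m := (volume (pt v '' {s | s ∈ Wt n ∧ s j = 0})).toReal with hm
  have h7 := h1 (m / (2 * (c + 1))) (by positivity)
  have h8 : m ≤ c * (m / (2 * (c + 1))) := by
    have h9 := ENNReal.toReal_mono ENNReal.ofReal_ne_top h7
    rwa [ENNReal.toReal_ofReal (by positivity)] at h9
  have h10 : c * (m / (2 * (c + 1))) < m := by
    rw [mul_div_assoc', div_lt_iff₀ (by positivity)]
    nlinarith
  linarith

/-- the piece of the barycentric coordinates near `z / k` -/
def Kz (v : Fin (n + 1) → Fin n → ℝ) (k : ℕ) (z : Fin n → ℝ) : Set (Fin (n + 1) → ℝ) :=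
  {t | t ∈ Wt n ∧ ∑ i, ((k : ℝ) * pt v t i - z i) ^ 2 ≤ (k : ℝ) * n}

theorem continuous_pt (v : Fin (n + 1) → Fin n → ℝ) : Continuous (pt v) := by
  unfold pt
  fun_prop

theorem isCompact_Wt (n : ℕ) : IsCompact (Wt n) := by
  have h : Wt n = stdSimplex ℝ (Fin (n + 1)) := rfl
  rw [h]
  exact isCompact_stdSimplex ℝ _

theorem isCompact_Kz (v : Fin (n + 1) → Fin n → ℝ) (k : ℕ) (z : Fin n → ℝ) :
    IsCompact (Kz v k z) := by
  have h : Kz v k z = Wt n ∩ {t | ∑ i, ((k : ℝ) * pt v t i - z i) ^ 2 ≤ (k : ℝ) * n} := rfl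
  rw [h]
  refine (isCompact_Wt n).inter_right (isClosed_le ?_ continuous_const)
  have := continuous_pt v
  fun_prop

theorem pt_add (v : Fin (n + 1) → Fin n → ℝ) (a b : ℝ) (s t : Fin (n + 1) → ℝ) (i : Fin n) :
    pt v (a • s + b • t) i = a * pt v s i + b * pt v t i := by
  unfold pt
  rw [Finset.mul_sum, Finset.mul_sum, ← Finset.sum_add_distrib]
  refine Finset.sum_congr rfl fun j _ => ?_
  simp only [Pi.add_apply, Pi.smul_apply, smul_eq_mul]
  ring

theorem convex_Kz (v : Fin (n + 1) → Fin n → ℝ) (k : ℕ) (z : Fin n → ℝ) :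
    Convex ℝ (Kz v k z) := by
  rintro s ⟨hs, hs2⟩ t ⟨ht, ht2⟩ a b ha hb hab
  refine ⟨?_, ?_⟩
  · have h : Wt n = stdSimplex ℝ (Fin (n + 1)) := rfl
    rw [h] at hs ht ⊢
    exact convex_stdSimplex ℝ _ hs ht ha hb hab
  · have h1 : ∀ i, ((k : ℝ) * pt v (a • s + b • t) i - z i) ^ 2 ≤
        a * ((k : ℝ) * pt v s i - z i) ^ 2 + b * ((k : ℝ) * pt v t i - z i) ^ 2 := by
      intro i
      rw [pt_add]
      have hb' : b = 1 - a := by linarith
      subst hb'
      have h2 : 0 ≤ a * (1 - a) * (((k : ℝ) * pt v s i - z i) - ((k : ℝ) * pt v t i - z i)) ^ 2 := by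
        positivity
      nlinarith
    calc ∑ i, ((k : ℝ) * pt v (a • s + b • t) i - z i) ^ 2
        ≤ ∑ i, (a * ((k : ℝ) * pt v s i - z i) ^ 2 + b * ((k : ℝ) * pt v t i - z i) ^ 2) :=
          Finset.sum_le_sum fun i _ => h1 i
      _ = a * ∑ i, ((k : ℝ) * pt v s i - z i) ^ 2 + b * ∑ i, ((k : ℝ) * pt v t i - z i) ^ 2 := by
          rw [Finset.sum_add_distrib, Finset.mul_sum, Finset.mul_sum]
      _ ≤ a * ((k : ℝ) * n) + b * ((k : ℝ) * n) :=
          add_le_add (mul_le_mul_of_nonneg_left hs2 ha) (mul_le_mul_of_nonneg_left ht2 hb)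
      _ = (k : ℝ) * n := by rw [← add_mul, hab, one_mul]

/-- two points of a piece are close -/
theorem Kz_close {v : Fin (n + 1) → Fin n → ℝ} {k : ℕ} (hk : 0 < k) {z : Fin n → ℝ}
    {s t : Fin (n + 1) → ℝ} (hs : s ∈ Kz v k z) (ht : t ∈ Kz v k z) :
    ∑ i, |pt v s i - pt v t i| ≤ 2 * n / Real.sqrt k := by
  have hk0 : (0 : ℝ) < k := by exact_mod_cast hk
  have h1 : (k : ℝ) ^ 2 * ∑ i, (pt v s i - pt v t i) ^ 2 ≤ 4 * (k * n) := by
    have h2 : ∀ i, (k : ℝ) ^ 2 * (pt v s i - pt v t i) ^ 2 ≤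
        2 * ((k : ℝ) * pt v s i - z i) ^ 2 + 2 * ((k : ℝ) * pt v t i - z i) ^ 2 := by
      intro i
      have h3 := sq_nonneg (((k : ℝ) * pt v s i - z i) + ((k : ℝ) * pt v t i - z i))
      nlinarith
    calc (k : ℝ) ^ 2 * ∑ i, (pt v s i - pt v t i) ^ 2
        = ∑ i, (k : ℝ) ^ 2 * (pt v s i - pt v t i) ^ 2 := Finset.mul_sum _ _ _
      _ ≤ ∑ i, (2 * ((k : ℝ) * pt v s i - z i) ^ 2 + 2 * ((k : ℝ) * pt v t i - z i) ^ 2) :=
          Finset.sum_le_sum fun i _ => h2 i
      _ = 2 * ∑ i, ((k : ℝ) * pt v s i - z i) ^ 2 + 2 * ∑ i, ((k : ℝ) * pt v t i - z i) ^ 2 := by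
          rw [Finset.sum_add_distrib, Finset.mul_sum, Finset.mul_sum]
      _ ≤ 4 * (k * n) := by linarith [hs.2, ht.2]
  have h2 : ∑ i, (pt v s i - pt v t i) ^ 2 ≤ 4 * n / k := by
    rw [le_div_iff₀ hk0]
    have h3 : (k : ℝ) * (∑ i, (pt v s i - pt v t i) ^ 2 * k) ≤ k * (4 * n) := by
      rw [← Finset.sum_mul]
      nlinarith
    have h4 := le_of_mul_le_mul_left h3 hk0
    rw [← Finset.sum_mul] at h4
    exact h4
  have h3 : (∑ i, |pt v s i - pt v t i|) ^ 2 ≤ (2 * n / Real.sqrt k) ^ 2 := by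
    have h4 := sq_sum_le_card_mul_sum_sq (s := (Finset.univ : Finset (Fin n)))
      (f := fun i => |pt v s i - pt v t i|)
    simp only [sq_abs, Finset.card_univ, Fintype.card_fin] at h4
    refine h4.trans ?_
    rw [div_pow, Real.sq_sqrt hk0.le, mul_pow]
    calc (n : ℝ) * ∑ i, (pt v s i - pt v t i) ^ 2 ≤ n * (4 * n / k) :=
          mul_le_mul_of_nonneg_left h2 (Nat.cast_nonneg n)
      _ = 2 ^ 2 * (n : ℝ) ^ 2 / k := by ring
  exact le_of_sq_le_sq h3 (by positivity)

/-- The integral of the weight over a piece of a simplex. -/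
theorem piece_le {v : Fin (n + 1) → Fin n → ℝ} (hv : ∀ j i, 0 ≤ v j i ∧ v j i ≤ 1) {k : ℕ}
    (hk : 0 < k) {δ : ℝ} (hδ : 0 < δ) (z : Fin n → ℝ) :
    ∫⁻ x in pt v '' Kz v k z, ENNReal.ofReal (∏ i, rho δ (x i)) ≤
      ENNReal.ofReal (Real.sqrt ((n : ℝ) + 1) ^ (n + 1) / n.factorial *
        Real.exp (n / (δ * Real.sqrt k))) := by
  have hk0 : (0 : ℝ) < k := by exact_mod_cast hk
  by_cases hne : ∃ s ∈ Kz v k z, ∀ j, 0 < s j
  · obtain ⟨t, ht, htpos, htc⟩ := centre (isCompact_Kz v k z) (convex_Kz v k z)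
      (fun s hs => hs.1.1) hne
    rw [Fintype.card_fin] at htc
    push_cast at htc
    have hvol := vol_le (v := v) htpos (K := Kz v k z) (fun s hs => ⟨hs.1, htc s hs⟩)
    have hB : ∀ x ∈ pt v '' Kz v k z, ENNReal.ofReal (∏ i, rho δ (x i)) ≤
        ENNReal.ofReal ((∏ i, rho δ (pt v t i)) * Real.exp (n / (δ * Real.sqrt k))) := by
      rintro _ ⟨s, hs, rfl⟩
      refine ENNReal.ofReal_le_ofReal ?_
      calc ∏ i, rho δ (pt v s i)
          ≤ ∏ i, (rho δ (pt v t i) * Real.exp (|pt v s i - pt v t i| / (2 * δ))) :=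
            Finset.prod_le_prod (fun i _ => (rho_pos hδ _).le)
              fun i _ => rho_le hδ (pt_mem hv hs.1 i) (pt_mem hv ht.1 i)
        _ = (∏ i, rho δ (pt v t i)) * Real.exp ((∑ i, |pt v s i - pt v t i|) / (2 * δ)) := by
            rw [Finset.prod_mul_distrib, ← Real.exp_sum, Finset.sum_div]
        _ ≤ (∏ i, rho δ (pt v t i)) * Real.exp (n / (δ * Real.sqrt k)) := by
            refine mul_le_mul_of_nonneg_left (Real.exp_le_exp.mpr ?_)
              (Finset.prod_nonneg fun i _ => (rho_pos hδ _).le)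
            calc (∑ i, |pt v s i - pt v t i|) / (2 * δ) ≤ (2 * n / Real.sqrt k) / (2 * δ) :=
                  div_le_div_of_nonneg_right (Kz_close hk hs ht) (by positivity)
              _ = n / (δ * Real.sqrt k) := by
                  have := Real.sqrt_pos.mpr hk0
                  field_simp
    have hmeas : MeasurableSet (pt v '' Kz v k z) :=
      ((isCompact_Kz v k z).image (continuous_pt v)).isClosed.measurableSet
    refine (setLIntegral_mono' hmeas hB).trans ?_
    rw [setLIntegral_const]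
    refine (mul_le_mul_right hvol _).trans ?_
    have hR : 0 ≤ (∏ i, rho δ (pt v t i)) * Real.exp (n / (δ * Real.sqrt k)) :=
      mul_nonneg (Finset.prod_nonneg fun i _ => (rho_pos hδ _).le) (Real.exp_pos _).le
    rw [← ENNReal.ofReal_mul hR]
    refine ENNReal.ofReal_le_ofReal ?_
    have h1 := det_prod_le hv ht.1
    have h2 : (∏ i, Real.sqrt (pt v t i * (1 - pt v t i))) * ∏ i, rho δ (pt v t i) ≤ 1 := by
      rw [← Finset.prod_mul_distrib]
      exact Finset.prod_le_one (fun i _ => mul_nonneg (Real.sqrt_nonneg _) (rho_pos hδ _).le)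
        fun i _ => sqrt_mul_rho hδ _
    have hf : (0 : ℝ) < n.factorial := by exact_mod_cast Nat.factorial_pos n
    have hP : 0 ≤ ∏ i, rho δ (pt v t i) := Finset.prod_nonneg fun i _ => (rho_pos hδ _).le
    have hE := Real.exp_pos (n / (δ * Real.sqrt k))
    calc (∏ i, rho δ (pt v t i)) * Real.exp (n / (δ * Real.sqrt k)) *
          (((n : ℝ) + 1) ^ (n + 1) * (|(extM v).det| * ∏ j, t j) / n.factorial)
        = (((n : ℝ) + 1) ^ (n + 1) * (|(extM v).det| * ∏ j, t j)) *
          ((∏ i, rho δ (pt v t i)) * Real.exp (n / (δ * Real.sqrt k)) / n.factorial) := by ring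
      _ ≤ (Real.sqrt ((n : ℝ) + 1) ^ (n + 1) * ∏ i, Real.sqrt (pt v t i * (1 - pt v t i))) *
          ((∏ i, rho δ (pt v t i)) * Real.exp (n / (δ * Real.sqrt k)) / n.factorial) :=
          mul_le_mul_of_nonneg_right h1 (by positivity)
      _ = ((∏ i, Real.sqrt (pt v t i * (1 - pt v t i))) * ∏ i, rho δ (pt v t i)) *
          (Real.sqrt ((n : ℝ) + 1) ^ (n + 1) / n.factorial *
            Real.exp (n / (δ * Real.sqrt k))) := by ring
      _ ≤ 1 * (Real.sqrt ((n : ℝ) + 1) ^ (n + 1) / n.factorial *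
            Real.exp (n / (δ * Real.sqrt k))) :=
          mul_le_mul_of_nonneg_right h2 (by positivity)
      _ = _ := one_mul _
  · push Not at hne
    have h1 : volume (pt v '' Kz v k z) = 0 := by
      have h2 : pt v '' Kz v k z ⊆ ⋃ j, pt v '' {s | s ∈ Wt n ∧ s j = 0} := by
        rintro _ ⟨s, hs, rfl⟩
        obtain ⟨j, hj⟩ := hne s hs
        exact Set.mem_iUnion.mpr ⟨j, s, ⟨hs.1, le_antisymm hj (hs.1.1 j)⟩, rfl⟩
      refine measure_mono_null h2 ?_
      rw [measure_iUnion_null_iff]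
      exact fun j => face_null j
    rw [setLIntegral_measure_zero _ _ h1]
    exact bot_le

end Pool.Agent.Lib.MP_727085_co.As
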