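import Pool.Agent.Lib.MP_727085_co.As.E

set_option autoImplicit false

/-!
# Asymptotic lower bound: the integral of the weight
-/

namespace Pool.Agent.Lib.MP_727085_co.As

open MeasureTheory Set
open scoped Real

theorem hasDerivAt_prim {δ : ℝ} (hδ : 0 < δ) {x : ℝ} (hx : 0 ≤ x ∧ x ≤ 1) :
    HasDerivAt (fun x : ℝ => Real.arcsin ((2 * x - 1) / Real.sqrt (1 + 4 * δ)))
      (1 / Real.sqrt (x * (1 - x) + δ)) x := by
  have h0 : 0 < 1 + 4 * δ := by linarith
  have hs : 0 < Real.sqrt (1 + 4 * δ) := Real.sqrt_pos.mpr h0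
  have hss : Real.sqrt (1 + 4 * δ) ^ 2 = 1 + 4 * δ := Real.sq_sqrt h0.le
  have hy : ((2 * x - 1) / Real.sqrt (1 + 4 * δ)) ^ 2 < 1 := by
    rw [div_pow, hss, div_lt_one h0]
    nlinarith [mul_nonneg hx.1 (sub_nonneg.mpr hx.2)]
  have hy1 : (2 * x - 1) / Real.sqrt (1 + 4 * δ) ≠ -1 := by
    intro h
    rw [h] at hy
    norm_num at hy
  have hy2 : (2 * x - 1) / Real.sqrt (1 + 4 * δ) ≠ 1 := by
    intro h
    rw [h] at hy
    norm_num at hy
  have h1 : HasDerivAt (fun x : ℝ => (2 * x - 1) / Real.sqrt (1 + 4 * δ))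
      (2 / Real.sqrt (1 + 4 * δ)) x := by
    have := (((hasDerivAt_id x).const_mul 2).sub_const 1).div_const (Real.sqrt (1 + 4 * δ))
    simpa using this
  have h2 := (Real.hasDerivAt_arcsin hy1 hy2).comp x h1
  refine h2.congr_deriv ?_
  have h3 : 1 - ((2 * x - 1) / Real.sqrt (1 + 4 * δ)) ^ 2 =
      (2 / Real.sqrt (1 + 4 * δ)) ^ 2 * (x * (1 - x) + δ) := by
    rw [div_pow, div_pow, hss]
    field_simp
    ring
  have h4 : 0 < 2 / Real.sqrt (1 + 4 * δ) := by positivity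
  rw [h3, Real.sqrt_mul (by positivity), Real.sqrt_sq h4.le]
  have h5 : 0 < Real.sqrt (x * (1 - x) + δ) :=
    Real.sqrt_pos.mpr (by nlinarith [mul_nonneg hx.1 (sub_nonneg.mpr hx.2)])
  field_simp

theorem int_ge {δ : ℝ} (hδ : 0 < δ) :
    2 * Real.arcsin (1 / Real.sqrt (1 + 4 * δ)) ≤ ∫ x in (0 : ℝ)..1, rho δ x := by
  have hcont : ContinuousOn (fun x : ℝ => 1 / Real.sqrt (x * (1 - x) + δ)) (Set.uIcc 0 1) := by
    refine ContinuousOn.div continuousOn_const ?_ ?_
    · exact (Real.continuous_sqrt.comp (by fun_prop)).continuousOn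
    · intro x hx
      rw [Set.uIcc_of_le zero_le_one] at hx
      exact (Real.sqrt_pos.mpr (by nlinarith [mul_nonneg hx.1 (sub_nonneg.mpr hx.2)])).ne'
  have h1 : ∫ x in (0 : ℝ)..1, 1 / Real.sqrt (x * (1 - x) + δ) =
      2 * Real.arcsin (1 / Real.sqrt (1 + 4 * δ)) := by
    rw [intervalIntegral.integral_eq_sub_of_hasDerivAt (f := fun x : ℝ =>
      Real.arcsin ((2 * x - 1) / Real.sqrt (1 + 4 * δ))) (fun x hx => by
        rw [Set.uIcc_of_le zero_le_one] at hx
        exact hasDerivAt_prim hδ hx) hcont.intervalIntegrable]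
    have h2 : (2 * (1 : ℝ) - 1) / Real.sqrt (1 + 4 * δ) = 1 / Real.sqrt (1 + 4 * δ) := by
      norm_num
    have h3 : (2 * (0 : ℝ) - 1) / Real.sqrt (1 + 4 * δ) = -(1 / Real.sqrt (1 + 4 * δ)) := by
      ring
    simp only [h2, h3, Real.arcsin_neg]
    ring
  rw [← h1]
  refine intervalIntegral.integral_mono_on zero_le_one hcont.intervalIntegrable
    ((continuous_rho hδ).intervalIntegrable _ _) ?_
  intro x hx
  unfold rho
  have h4 : 0 ≤ x * (1 - x) := mul_nonneg hx.1 (sub_nonneg.mpr hx.2)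
  have h5 : 0 < max (x * (1 - x)) δ := lt_of_lt_of_le hδ (le_max_right _ _)
  refine one_div_le_one_div_of_le (Real.sqrt_pos.mpr h5) (Real.sqrt_le_sqrt ?_)
  exact max_le (by linarith) (by linarith)

/-- `∫ ρ ≥ π e^{-2y}` where `δ = y² / 4`. -/
theorem int_ge_exp {y : ℝ} (hy : 0 < y) (hy1 : y ≤ 1) :
    π * Real.exp (-(2 * y)) ≤ ∫ x in (0 : ℝ)..1, rho (y ^ 2 / 4) x := by
  refine le_trans ?_ (int_ge (by positivity))
  have h0 : 1 + 4 * (y ^ 2 / 4) = y ^ 2 + 1 := by ring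
  rw [h0]
  have hpi := Real.pi_gt_three
  have h1 : π / 2 - y ≤ Real.arcsin (1 / Real.sqrt (y ^ 2 + 1)) := by
    have h2 : Real.cos y ≤ 1 / Real.sqrt (y ^ 2 + 1) :=
      Real.cos_le_one_div_sqrt_sq_add_one (by linarith) (by linarith)
    have h3 := Real.monotone_arcsin h2
    rwa [← Real.sin_pi_div_two_sub, Real.arcsin_sin (by linarith) (by linarith)] at h3
  have h2 : Real.exp (-(2 * y)) ≤ 1 - 2 * y / π := by
    have h3 := Real.add_one_le_exp (2 * y)
    have h4 : Real.exp (-(2 * y)) * Real.exp (2 * y) = 1 := by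
      rw [← Real.exp_add]
      simp
    have h5 : 0 < 1 - 2 * y / π := by
      have : 2 * y / π < 1 := by
        rw [div_lt_one Real.pi_pos]
        linarith
      linarith
    have h6 : 1 ≤ (1 - 2 * y / π) * (2 * y + 1) := by
      have h7 : (1 - 2 * y / π) * (2 * y + 1) = 1 + 2 * y * (1 - (1 + 2 * y) / π) := by
        field_simp
        ring
      have h8 : (1 + 2 * y) / π ≤ 1 := by
        rw [div_le_one Real.pi_pos]
        linarith
      rw [h7]
      nlinarith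
    have h9 : 1 ≤ (1 - 2 * y / π) * Real.exp (2 * y) :=
      h6.trans (mul_le_mul_of_nonneg_left h3 h5.le)
    have hE := Real.exp_pos (2 * y)
    have : Real.exp (-(2 * y)) * Real.exp (2 * y) ≤ (1 - 2 * y / π) * Real.exp (2 * y) := by
      rw [h4]
      exact h9
    exact le_of_mul_le_mul_right this hE
  calc π * Real.exp (-(2 * y)) ≤ π * (1 - 2 * y / π) :=
        mul_le_mul_of_nonneg_left h2 Real.pi_pos.le
    _ = 2 * (π / 2 - y) := by
        field_simp
    _ ≤ _ := by linarith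

end Pool.Agent.Lib.MP_727085_co.As
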