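import Pool.Agent.Lib.MP_727085_co.As.D
import Pool.Agent.Lib.MP_727085_co.As.E
import Pool.Agent.Lib.MP_727085_co.Moves

set_option autoImplicit false

/-!
# Asymptotic lower bound: the explicit inequality for covers
-/

namespace Pool.Agent.Lib.MP_727085_co.As

open Finset Matrix MeasureTheory Set
open scoped ENNReal

variable {n : ℕ}

theorem hull_eq (v : Fin (n + 1) → Fin n → ℝ) :
    convexHull ℝ (Set.range v) = pt v '' Wt n := by
  ext p
  rw [← Set.image_univ, mem_hull_iff_rep]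
  constructor
  · rintro ⟨t, ht, -⟩
    refine ⟨t, ⟨ht.1, ht.2.1⟩, ?_⟩
    rw [← ht.2.2]
    funext i
    simp [pt]
  · rintro ⟨t, ht, rfl⟩
    refine ⟨t, ⟨ht.1, ht.2, ?_⟩, fun i hi => absurd (Set.mem_univ i) hi⟩
    funext i
    simp [pt]

theorem exists_enum {s : Finset (Fin n → ℝ)} (hs : s.Nonempty) (hc : s.card ≤ n + 1) :
    ∃ v : Fin (n + 1) → Fin n → ℝ, Set.range v = (s : Set (Fin n → ℝ)) := by
  classical
  have h1 : Fintype.card s ≤ Fintype.card (Fin (n + 1)) := by simpa using hc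
  obtain ⟨f⟩ := Function.Embedding.nonempty_of_card_le h1
  have : Nonempty s := ⟨⟨hs.choose, hs.choose_spec⟩⟩
  refine ⟨fun j => (Function.invFun f j : s), ?_⟩
  ext x
  constructor
  · rintro ⟨j, rfl⟩
    exact (Function.invFun f j).2
  · intro hx
    obtain ⟨j, hj⟩ := Function.invFun_surjective f.injective ⟨x, hx⟩
    exact ⟨j, by simp [hj]⟩

theorem natCast_mul_ofReal (m : ℕ) (B : ℝ) :
    (m : ℝ≥0∞) * ENNReal.ofReal B = ENNReal.ofReal ((m : ℝ) * B) := by
  rw [ENNReal.ofReal_mul (Nat.cast_nonneg _), ENNReal.ofReal_natCast]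

/-- the weighted measure -/
noncomputable def mu (δ : ℝ) (n : ℕ) : Measure (Fin n → ℝ) :=
  volume.withDensity fun x => ENNReal.ofReal (∏ i, rho δ (x i))

theorem mu_simplex {v : Fin (n + 1) → Fin n → ℝ} (hv : ∀ j i, 0 ≤ v j i ∧ v j i ≤ 1) {k : ℕ}
    (hk : 0 < k) {δ : ℝ} (hδ : 0 < δ) :
    mu δ n (pt v '' Wt n) ≤ ENNReal.ofReal (((n : ℝ) + 1) ^ k *
      (Real.sqrt ((n : ℝ) + 1) ^ (n + 1) / n.factorial * Real.exp (n / (δ * Real.sqrt k)))) := by
  have h1 : pt v '' Wt n ⊆ ⋃ J : Fin k → Fin (n + 1), pt v '' Kz v k (fun i => ∑ l, v (J l) i) := by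
    rintro _ ⟨t, ht, rfl⟩
    obtain ⟨J, hJ⟩ := maurey hv ht k
    exact Set.mem_iUnion.mpr ⟨J, t, ⟨ht, hJ⟩, rfl⟩
  have h2 : ∀ J : Fin k → Fin (n + 1), mu δ n (pt v '' Kz v k (fun i => ∑ l, v (J l) i)) ≤
      ENNReal.ofReal (Real.sqrt ((n : ℝ) + 1) ^ (n + 1) / n.factorial *
        Real.exp (n / (δ * Real.sqrt k))) := by
    intro J
    have hmeas : MeasurableSet (pt v '' Kz v k (fun i => ∑ l, v (J l) i)) :=
      ((isCompact_Kz v k _).image (continuous_pt v)).isClosed.measurableSet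
    unfold mu
    rw [withDensity_apply _ hmeas]
    exact piece_le hv hk hδ _
  calc mu δ n (pt v '' Wt n)
      ≤ mu δ n (⋃ J : Fin k → Fin (n + 1), pt v '' Kz v k (fun i => ∑ l, v (J l) i)) :=
        measure_mono h1
    _ ≤ ∑ J : Fin k → Fin (n + 1), mu δ n (pt v '' Kz v k (fun i => ∑ l, v (J l) i)) :=
        measure_iUnion_fintype_le _ _
    _ ≤ ∑ _J : Fin k → Fin (n + 1), ENNReal.ofReal (Real.sqrt ((n : ℝ) + 1) ^ (n + 1) /
          n.factorial * Real.exp (n / (δ * Real.sqrt k))) := Finset.sum_le_sum fun J _ => h2 J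
    _ = _ := by
        rw [Finset.sum_const, Finset.card_univ, Fintype.card_fun, Fintype.card_fin,
          Fintype.card_fin, nsmul_eq_mul, natCast_mul_ofReal]
        push_cast
        rfl

theorem mu_cube {δ : ℝ} (hδ : 0 < δ) :
    mu δ n (Set.Icc 0 1) = ENNReal.ofReal ((∫ x in (0 : ℝ)..1, rho δ x) ^ n) := by
  have h0 : (Set.Icc (0 : Fin n → ℝ) 1) = Set.univ.pi fun _ : Fin n => Set.Icc (0 : ℝ) 1 := by
    rw [Set.pi_univ_Icc]
    rfl
  unfold mu
  rw [withDensity_apply _ measurableSet_Icc]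
  have hcont : Continuous fun x : Fin n → ℝ => ∏ i, rho δ (x i) :=
    continuous_finsetProd _ fun i _ => (continuous_rho hδ).comp (continuous_apply i)
  rw [← ofReal_integral_eq_lintegral_ofReal]
  · congr 1
    rw [h0]
    have h1 : (volume : Measure (Fin n → ℝ)).restrict (Set.univ.pi fun _ : Fin n =>
        Set.Icc (0 : ℝ) 1) = Measure.pi fun _ : Fin n => volume.restrict (Set.Icc (0 : ℝ) 1) := by
      rw [volume_pi, Measure.restrict_pi_pi]
    rw [h1]
    have h2 := integral_fintype_prod_eq_prod (𝕜 := ℝ) (ι := Fin n) (E := fun _ => ℝ)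
      (μ := fun _ => volume.restrict (Set.Icc (0 : ℝ) 1)) (fun _ => rho δ)
    rw [h2, Finset.prod_const, Finset.card_univ, Fintype.card_fin,
      intervalIntegral.integral_of_le zero_le_one, integral_Icc_eq_integral_Ioc]
  · exact (hcont.continuousOn.integrableOn_compact isCompact_Icc)
  · exact Filter.Eventually.of_forall fun x => Finset.prod_nonneg fun i _ => (rho_pos hδ _).le

/-- The explicit inequality for covers of the cube by simplices with vertices in the cube. -/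
theorem cover_le (T : Finset (Finset (Fin n → ℝ))) (hcard : ∀ s ∈ T, s.card ≤ n + 1)
    (hcube : ∀ s ∈ T, (s : Set (Fin n → ℝ)) ⊆ Set.Icc 0 1)
    (hcov : Set.Icc 0 1 ⊆ ⋃ s ∈ T, convexHull ℝ (s : Set (Fin n → ℝ))) {k : ℕ} (hk : 0 < k)
    {δ : ℝ} (hδ : 0 < δ) :
    (∫ x in (0 : ℝ)..1, rho δ x) ^ n ≤ T.card * (((n : ℝ) + 1) ^ k *
      (Real.sqrt ((n : ℝ) + 1) ^ (n + 1) / n.factorial * Real.exp (n / (δ * Real.sqrt k)))) := by
  set B : ℝ := ((n : ℝ) + 1) ^ k *
      (Real.sqrt ((n : ℝ) + 1) ^ (n + 1) / n.factorial * Real.exp (n / (δ * Real.sqrt k))) with hB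
  have hB0 : 0 ≤ B := by positivity
  have h1 : ∀ s ∈ T, mu δ n (convexHull ℝ (s : Set (Fin n → ℝ))) ≤ ENNReal.ofReal B := by
    intro s hs
    rcases s.eq_empty_or_nonempty with rfl | hne
    · simp
    · obtain ⟨v, hv⟩ := exists_enum hne (hcard s hs)
      rw [← hv, hull_eq]
      refine mu_simplex (fun j i => ?_) hk hδ
      have h2 : v j ∈ Set.Icc (0 : Fin n → ℝ) 1 := hcube s hs (hv ▸ Set.mem_range_self j)
      exact ⟨h2.1 i, h2.2 i⟩
  have h2 : mu δ n (Set.Icc 0 1) ≤ ENNReal.ofReal (T.card * B) := by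
    calc mu δ n (Set.Icc 0 1) ≤ mu δ n (⋃ s ∈ T, convexHull ℝ (s : Set (Fin n → ℝ))) :=
          measure_mono hcov
      _ ≤ ∑ s ∈ T, mu δ n (convexHull ℝ (s : Set (Fin n → ℝ))) :=
          measure_biUnion_finset_le _ _
      _ ≤ ∑ _s ∈ T, ENNReal.ofReal B := Finset.sum_le_sum h1
      _ = ENNReal.ofReal (T.card * B) := by
          rw [Finset.sum_const, nsmul_eq_mul, natCast_mul_ofReal]
  rw [mu_cube hδ] at h2
  exact (ENNReal.ofReal_le_ofReal_iff (by positivity)).mp h2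

end Pool.Agent.Lib.MP_727085_co.As
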