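import Pool.Agent.Lib.MP_727085_co.As.F
import Pool.Agent.Lib.MP_727085_co.As.G

set_option autoImplicit false

/-!
# Asymptotic lower bound: the final estimates
-/

namespace Pool.Agent.Lib.MP_727085_co.As

open Finset MeasureTheory Set
open scoped Real

variable {n : ℕ}

theorem sqrt_succ_pow_le (hn : 1 ≤ n) : Real.sqrt ((n : ℝ) + 1) ^ (n + 1) ≤
    Real.sqrt n ^ n * (Real.exp (1 / 2) * Real.exp (1 / 2 * Real.log ((n : ℝ) + 1))) := by
  have hn0 : (0 : ℝ) < n := by exact_mod_cast hn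
  have h1 : Real.sqrt ((n : ℝ) + 1) ≤ Real.sqrt n * Real.exp (1 / (2 * n)) := by
    have h2 : (n : ℝ) + 1 ≤ n * Real.exp (1 / n) := by
      have h3 := Real.add_one_le_exp (1 / (n : ℝ))
      calc (n : ℝ) + 1 = n * (1 / n + 1) := by
            field_simp
            ring
        _ ≤ _ := mul_le_mul_of_nonneg_left h3 hn0.le
    have h3 : Real.sqrt (Real.exp (1 / n)) = Real.exp (1 / (2 * n)) := by
      rw [Real.sqrt_eq_iff_mul_self_eq (Real.exp_pos _).le (Real.exp_pos _).le, ← Real.exp_add]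
      congr 1
      field_simp
      norm_num
    rw [← h3, ← Real.sqrt_mul hn0.le]
    exact Real.sqrt_le_sqrt h2
  have h2 : Real.sqrt ((n : ℝ) + 1) ^ n ≤ Real.sqrt n ^ n * Real.exp (1 / 2) := by
    calc Real.sqrt ((n : ℝ) + 1) ^ n ≤ (Real.sqrt n * Real.exp (1 / (2 * n))) ^ n :=
          pow_le_pow_left₀ (Real.sqrt_nonneg _) h1 n
      _ = Real.sqrt n ^ n * Real.exp (1 / 2) := by
          rw [mul_pow, ← Real.exp_nat_mul]
          congr 2
          field_simp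
  have h3 : Real.sqrt ((n : ℝ) + 1) = Real.exp (1 / 2 * Real.log ((n : ℝ) + 1)) := by
    rw [Real.sqrt_eq_rpow, Real.rpow_def_of_pos (by positivity)]
    congr 1
    ring
  rw [pow_succ]
  calc Real.sqrt ((n : ℝ) + 1) ^ n * Real.sqrt ((n : ℝ) + 1)
      ≤ (Real.sqrt n ^ n * Real.exp (1 / 2)) * Real.sqrt ((n : ℝ) + 1) :=
        mul_le_mul_of_nonneg_right h2 (Real.sqrt_nonneg _)
    _ = _ := by
        rw [h3]
        ring

theorem inv_factorial_le (hn : 1 ≤ n) :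
    1 / (n.factorial : ℝ) ≤ Real.exp n / (Real.sqrt n ^ n * Real.sqrt n ^ n) := by
  have hn0 : (0 : ℝ) < n := by exact_mod_cast hn
  have h1 := Real.pow_div_factorial_le_exp (n : ℝ) hn0.le n
  have hf : (0 : ℝ) < n.factorial := by exact_mod_cast Nat.factorial_pos n
  rw [← mul_pow, Real.mul_self_sqrt hn0.le, div_le_div_iff₀ hf (by positivity), one_mul]
  rwa [div_le_iff₀ hf] at h1

/-- The explicit bound for covers. -/
theorem explicit_bound (hn : 1 ≤ n) (T : Finset (Finset (Fin n → ℝ)))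
    (hcard : ∀ s ∈ T, s.card ≤ n + 1)
    (hcube : ∀ s ∈ T, (s : Set (Fin n → ℝ)) ⊆ Set.Icc 0 1)
    (hcov : Set.Icc 0 1 ⊆ ⋃ s ∈ T, convexHull ℝ (s : Set (Fin n → ℝ))) :
    (π / Real.exp 1 * Real.sqrt n) ^ n *
      Real.exp (-(12 * (n : ℝ) ^ (6 / 7 : ℝ) * Real.log ((n : ℝ) + 1))) ≤ T.card := by
  have hn0 : (0 : ℝ) < n := by exact_mod_cast hn
  have hn1 : (1 : ℝ) ≤ n := by exact_mod_cast hn
  set m : ℝ := (n : ℝ) ^ (6 / 7 : ℝ) with hm
  have hm1 : 1 ≤ m := Real.one_le_rpow hn1 (by norm_num)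
  set L : ℝ := Real.log ((n : ℝ) + 1) with hL
  have hL1 : Real.log 2 ≤ L := Real.log_le_log (by norm_num) (by linarith)
  have hlog2 := Real.log_two_gt_d9
  set y : ℝ := (n : ℝ) ^ (-(1 / 7) : ℝ) with hy
  have hy0 : 0 < y := Real.rpow_pos_of_pos hn0 _
  have hy1 : y ≤ 1 := Real.rpow_le_one_of_one_le_of_nonpos hn1 (by norm_num)
  have hny : (n : ℝ) * y = m := by
    rw [hy, hm]
    nth_rewrite 1 [← Real.rpow_one (n : ℝ)]
    rw [← Real.rpow_add hn0]
    norm_num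
  set k : ℕ := ⌈m⌉₊ with hk
  have hkm : m ≤ k := Nat.le_ceil m
  have hkm1 : (k : ℝ) ≤ m + 1 := (Nat.ceil_lt_add_one (by linarith)).le
  have hk0 : 0 < k := Nat.ceil_pos.mpr (by linarith)
  have hmain := cover_le T hcard hcube hcov hk0 (δ := y ^ 2 / 4) (by positivity)
  -- the integral
  have h1 : π ^ n * Real.exp (-(2 * m)) ≤ (∫ x in (0 : ℝ)..1, rho (y ^ 2 / 4) x) ^ n := by
    calc π ^ n * Real.exp (-(2 * m)) = (π * Real.exp (-(2 * y))) ^ n := by
          rw [mul_pow, ← Real.exp_nat_mul]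
          congr 2
          rw [← hny]
          ring
      _ ≤ _ := pow_le_pow_left₀ (by positivity) (int_ge_exp hy0 hy1) n
  -- the error of the weight
  have h2 : (n : ℝ) / (y ^ 2 / 4 * Real.sqrt k) ≤ 4 * m := by
    have hsm : Real.sqrt m ≤ Real.sqrt k := Real.sqrt_le_sqrt hkm
    have hsm0 : 0 < Real.sqrt m := Real.sqrt_pos.mpr (by linarith)
    have h5 : y ^ 3 * Real.sqrt m = 1 := by
      rw [hy, hm, Real.sqrt_eq_rpow, ← Real.rpow_natCast, ← Real.rpow_mul hn0.le,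
        ← Real.rpow_mul hn0.le, ← Real.rpow_add hn0]
      norm_num
    have h6 : 1 ≤ y ^ 3 * Real.sqrt k := by
      rw [← h5]
      exact mul_le_mul_of_nonneg_left hsm (by positivity)
    rw [div_le_iff₀ (by positivity), ← hny]
    calc (n : ℝ) = n * 1 := (mul_one _).symm
      _ ≤ n * (y ^ 3 * Real.sqrt k) := mul_le_mul_of_nonneg_left h6 hn0.le
      _ = 4 * (n * y) * (y ^ 2 / 4 * Real.sqrt k) := by ring
  -- the number of pieces
  have h3 : ((n : ℝ) + 1) ^ k ≤ Real.exp ((m + 1) * L) := by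
    have h4 : ((n : ℝ) + 1) ^ k = Real.exp (k * L) := by
      rw [hL, mul_comm, Real.exp_mul, Real.exp_log (by positivity), Real.rpow_natCast]
    rw [h4]
    exact Real.exp_le_exp.mpr (mul_le_mul_of_nonneg_right hkm1 (by linarith))
  have h4 := sqrt_succ_pow_le hn
  have h5 := inv_factorial_le hn
  have hs : 0 < Real.sqrt n ^ n := by positivity
  -- collect
  have h6 : ((n : ℝ) + 1) ^ k * (Real.sqrt ((n : ℝ) + 1) ^ (n + 1) / n.factorial *
      Real.exp (n / (y ^ 2 / 4 * Real.sqrt k))) ≤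
      (Real.exp n / Real.sqrt n ^ n) *
        Real.exp ((m + 1) * L + 1 / 2 + 1 / 2 * L + 4 * m) := by
    calc ((n : ℝ) + 1) ^ k * (Real.sqrt ((n : ℝ) + 1) ^ (n + 1) / n.factorial *
          Real.exp (n / (y ^ 2 / 4 * Real.sqrt k)))
        = ((n : ℝ) + 1) ^ k * (Real.sqrt ((n : ℝ) + 1) ^ (n + 1) * (1 / n.factorial) *
          Real.exp (n / (y ^ 2 / 4 * Real.sqrt k))) := by ring
      _ ≤ Real.exp ((m + 1) * L) * ((Real.sqrt n ^ n * (Real.exp (1 / 2) *
          Real.exp (1 / 2 * L))) * (Real.exp n / (Real.sqrt n ^ n * Real.sqrt n ^ n)) *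
          Real.exp (4 * m)) := by
          gcongr
      _ = (Real.exp n / Real.sqrt n ^ n) *
        (Real.exp ((m + 1) * L) * Real.exp (1 / 2) * Real.exp (1 / 2 * L) *
          Real.exp (4 * m)) := by
          field_simp
      _ = _ := by
          rw [← Real.exp_add, ← Real.exp_add, ← Real.exp_add]
  have h7 : π ^ n * Real.exp (-(2 * m)) ≤ T.card * ((Real.exp n / Real.sqrt n ^ n) *
        Real.exp ((m + 1) * L + 1 / 2 + 1 / 2 * L + 4 * m)) :=
    (h1.trans hmain).trans (mul_le_mul_of_nonneg_left h6 (Nat.cast_nonneg _))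
  have h8 : (m + 1) * L + 1 / 2 + 1 / 2 * L + 4 * m + 2 * m ≤ 12 * m * L := by
    nlinarith [mul_le_mul_of_nonneg_right hm1 (by linarith : (0 : ℝ) ≤ L),
      mul_le_mul_of_nonneg_left hL1 (by linarith : (0 : ℝ) ≤ m)]
  have h9 : (π / Real.exp 1 * Real.sqrt n) ^ n * Real.exp n = π ^ n * Real.sqrt n ^ n := by
    rw [mul_pow, div_pow, ← Real.exp_nat_mul, mul_one]
    field_simp
  set E := (m + 1) * L + 1 / 2 + 1 / 2 * L + 4 * m with hE
  have h10 : π ^ n * Real.sqrt n ^ n ≤ T.card * Real.exp n * Real.exp (E + 2 * m) := by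
    have h11 : π ^ n * Real.sqrt n ^ n = (π ^ n * Real.exp (-(2 * m))) *
        (Real.sqrt n ^ n * Real.exp (2 * m)) := by
      have : Real.exp (-(2 * m)) * Real.exp (2 * m) = 1 := by
        rw [← Real.exp_add]
        simp
      calc π ^ n * Real.sqrt n ^ n = π ^ n * Real.sqrt n ^ n * 1 := (mul_one _).symm
        _ = _ := by
            rw [← this]
            ring
    rw [h11]
    refine (mul_le_mul_of_nonneg_right h7 (by positivity)).trans (le_of_eq ?_)
    rw [Real.exp_add E (2 * m)]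
    field_simp
  have h12 : (π / Real.exp 1 * Real.sqrt n) ^ n ≤ T.card * Real.exp (E + 2 * m) := by
    have h13 : (π / Real.exp 1 * Real.sqrt n) ^ n * Real.exp n ≤
        (T.card * Real.exp (E + 2 * m)) * Real.exp n := by
      rw [h9]
      refine h10.trans (le_of_eq ?_)
      ring
    exact le_of_mul_le_mul_right h13 (Real.exp_pos _)
  calc (π / Real.exp 1 * Real.sqrt n) ^ n * Real.exp (-(12 * m * L))
      ≤ (T.card * Real.exp (E + 2 * m)) * Real.exp (-(12 * m * L)) :=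
        mul_le_mul_of_nonneg_right h12 (Real.exp_pos _).le
    _ = T.card * Real.exp (E + 2 * m - 12 * m * L) := by
        rw [mul_assoc, ← Real.exp_add]
        congr 2
    _ ≤ T.card * 1 := by
        refine mul_le_mul_of_nonneg_left ?_ (Nat.cast_nonneg _)
        rw [Real.exp_le_one_iff]
        linarith
    _ = T.card := mul_one _

/-- The error term is subexponential. -/
theorem error_small {ε : ℝ} (hε : 0 < ε) : ∃ n₀ : ℕ, ∀ n : ℕ, n₀ ≤ n →
    12 * (n : ℝ) ^ (6 / 7 : ℝ) * Real.log ((n : ℝ) + 1) ≤ ε * n := by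
  have h1 : ∀ᶠ x : ℝ in Filter.atTop, Real.log x ≤ (ε / 24) * x ^ (1 / 7 : ℝ) := by
    have h2 := (isLittleO_log_rpow_atTop (r := 1 / 7) (by norm_num)).bound
      (show (0 : ℝ) < ε / 24 by positivity)
    filter_upwards [h2, Filter.eventually_ge_atTop 1] with x hx hx1
    rw [Real.norm_of_nonneg (Real.log_nonneg hx1),
      Real.norm_of_nonneg (Real.rpow_nonneg (by linarith) _)] at hx
    exact hx
  obtain ⟨x₀, hx₀⟩ := Filter.eventually_atTop.mp h1
  refine ⟨max 1 ⌈x₀⌉₊, fun n hn => ?_⟩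
  have hn1 : 1 ≤ n := (le_max_left _ _).trans hn
  have hn1' : (1 : ℝ) ≤ n := by exact_mod_cast hn1
  have hnx : x₀ ≤ (n : ℝ) + 1 := by
    have h2 : (⌈x₀⌉₊ : ℝ) ≤ n := by exact_mod_cast (le_max_right _ _).trans hn
    linarith [Nat.le_ceil x₀]
  have h3 := hx₀ _ hnx
  have h4 : (n : ℝ) ^ (6 / 7 : ℝ) ≤ ((n : ℝ) + 1) ^ (6 / 7 : ℝ) :=
    Real.rpow_le_rpow (by linarith) (by linarith) (by norm_num)
  have h5 : ((n : ℝ) + 1) ^ (6 / 7 : ℝ) * ((n : ℝ) + 1) ^ (1 / 7 : ℝ) = (n : ℝ) + 1 := by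
    rw [← Real.rpow_add (by linarith)]
    norm_num
  calc 12 * (n : ℝ) ^ (6 / 7 : ℝ) * Real.log ((n : ℝ) + 1)
      ≤ 12 * (n : ℝ) ^ (6 / 7 : ℝ) * ((ε / 24) * ((n : ℝ) + 1) ^ (1 / 7 : ℝ)) :=
        mul_le_mul_of_nonneg_left h3 (by positivity)
    _ = (ε / 2) * ((n : ℝ) ^ (6 / 7 : ℝ) * ((n : ℝ) + 1) ^ (1 / 7 : ℝ)) := by ring
    _ ≤ (ε / 2) * (((n : ℝ) + 1) ^ (6 / 7 : ℝ) * ((n : ℝ) + 1) ^ (1 / 7 : ℝ)) := by
        gcongr
    _ = (ε / 2) * ((n : ℝ) + 1) := by rw [h5]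
    _ ≤ (ε / 2) * (2 * n) := by
        gcongr
        linarith
    _ = ε * n := by ring

/-- Asymptotic form for covers. -/
theorem asymptotic_bound {c : ℝ} (hc : 0 < c) (hc1 : c < π / Real.exp 1) :
    ∃ n₀ : ℕ, ∀ n : ℕ, n₀ ≤ n → ∀ T : Finset (Finset (Fin n → ℝ)),
      (∀ s ∈ T, s.card ≤ n + 1) → (∀ s ∈ T, (s : Set (Fin n → ℝ)) ⊆ Set.Icc 0 1) →
      (Set.Icc 0 1 ⊆ ⋃ s ∈ T, convexHull ℝ (s : Set (Fin n → ℝ))) →
      (c * Real.sqrt n) ^ n ≤ T.card := by
  have hq : 0 < Real.log (π / Real.exp 1 / c) := Real.log_pos (by rwa [one_lt_div hc])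
  obtain ⟨n₀, hn₀⟩ := error_small hq
  refine ⟨max 1 n₀, fun n hn T hcard hcube hcov => ?_⟩
  have hn1 : 1 ≤ n := (le_max_left _ _).trans hn
  refine le_trans ?_ (explicit_bound hn1 T hcard hcube hcov)
  have h1 := hn₀ n ((le_max_right _ _).trans hn)
  have h2 : Real.exp (-(Real.log (π / Real.exp 1 / c) * n)) ≤
      Real.exp (-(12 * (n : ℝ) ^ (6 / 7 : ℝ) * Real.log ((n : ℝ) + 1))) :=
    Real.exp_le_exp.mpr (by linarith)
  have h3 : (c * Real.sqrt n) ^ n = (π / Real.exp 1 * Real.sqrt n) ^ n *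
      Real.exp (-(Real.log (π / Real.exp 1 / c) * n)) := by
    have h4 : c = π / Real.exp 1 * Real.exp (-Real.log (π / Real.exp 1 / c)) := by
      rw [Real.exp_neg, Real.exp_log (by positivity)]
      field_simp
    have h5 : Real.exp (-(Real.log (π / Real.exp 1 / c) * n)) =
        Real.exp (-Real.log (π / Real.exp 1 / c)) ^ n := by
      rw [← Real.exp_nat_mul]
      congr 1
      ring
    rw [h5, ← mul_pow]
    congr 1
    calc c * Real.sqrt n = (π / Real.exp 1 * Real.exp (-Real.log (π / Real.exp 1 / c))) *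
          Real.sqrt n := by rw [← h4]
      _ = _ := by ring
  rw [h3]
  exact mul_le_mul_of_nonneg_left h2 (by positivity)

end Pool.Agent.Lib.MP_727085_co.As
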